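import Mathlib

/-!
# Continuous associative subadditive functions: quasi-convexity and support functions
-/

open scoped NNReal
open Set

namespace Pool.Agent.H3.Adm

/-- Conditions 1-3 of the problem, together with continuity and associativity. -/
structure Base (K : ℝ≥0 → ℝ≥0 → ℝ≥0) : Prop where
  zero_right : ∀ a, K a 0 = a
  symm : ∀ a b, K a b = K b a
  mono : ∀ a b c, a ≤ b → K a c ≤ K b c
  cont : Continuous (fun x : ℝ≥0 × ℝ≥0 => K x.1 x.2)
  assoc : ∀ a b c, K (K a b) c = K a (K b c)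

/-- The support function of the sublevel sets: `supp K θ r` is the supremum of `a + θ b` over all pairs
with `K a b ≤ r`. -/
noncomputable def supp (K : ℝ≥0 → ℝ≥0 → ℝ≥0) (θ r : ℝ≥0) : ℝ≥0 :=
  sSup {t | ∃ a b : ℝ≥0, K a b ≤ r ∧ t = a + θ * b}

variable {K : ℝ≥0 → ℝ≥0 → ℝ≥0}

lemma Base.mono₂ (hK : Base K) {a b c d : ℝ≥0} (h1 : a ≤ b) (h2 : c ≤ d) : K a c ≤ K b d := by
  refine (hK.mono a b c h1).trans ?_
  rw [hK.symm b c, hK.symm b d]
  exact hK.mono c d b h2

lemma Base.zero_left (hK : Base K) (a : ℝ≥0) : K 0 a = a := by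
  rw [hK.symm, hK.zero_right]

lemma Base.le_left (hK : Base K) (a b : ℝ≥0) : a ≤ K a b := by
  calc a = K a 0 := (hK.zero_right a).symm
    _ ≤ K a b := hK.mono₂ le_rfl zero_le

lemma Base.le_right (hK : Base K) (a b : ℝ≥0) : b ≤ K a b := by
  rw [hK.symm]; exact hK.le_left b a

lemma Base.cont_right (hK : Base K) (a : ℝ≥0) : Continuous (fun x => K a x) :=
  hK.cont.comp (Continuous.prodMk_right a)

/-- the residual -/
noncomputable def res (K : ℝ≥0 → ℝ≥0 → ℝ≥0) (a b : ℝ≥0) : ℝ≥0 := sInf {z | a ≤ K b z}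

lemma Base.res_mem (hK : Base K) (a b : ℝ≥0) : a ≤ K b (res K a b) := by
  have hcl : IsClosed {z | a ≤ K b z} := isClosed_le continuous_const (hK.cont_right b)
  have hne : ({z | a ≤ K b z} : Set ℝ≥0).Nonempty := ⟨a, hK.le_right b a⟩
  exact hcl.csInf_mem hne (OrderBot.bddBelow _)

lemma Base.res_le_iff (hK : Base K) (a b z : ℝ≥0) : res K a b ≤ z ↔ a ≤ K b z := by
  constructor
  · intro h
    exact (hK.res_mem a b).trans (hK.mono₂ le_rfl h)
  · intro h
    exact csInf_le (OrderBot.bddBelow _) h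

lemma Base.K_res (hK : Base K) {a b : ℝ≥0} (h : b ≤ a) : K b (res K a b) = a := by
  refine le_antisymm ?_ (hK.res_mem a b)
  -- some z with K b z = a
  have hz : ∃ z, K b z = a := by
    have h1 := intermediate_value_Icc (zero_le : (0 : ℝ≥0) ≤ a) ((hK.cont_right b).continuousOn)
    have h2 : a ∈ Icc (K b 0) (K b a) := ⟨by rw [hK.zero_right]; exact h, hK.le_right b a⟩
    obtain ⟨z, _, hz⟩ := h1 h2
    exact ⟨z, hz⟩
  obtain ⟨z, hz⟩ := hz
  have h1 : res K a b ≤ z := (hK.res_le_iff a b z).2 hz.ge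
  exact (hK.mono₂ le_rfl h1).trans hz.le

/-- `K` grows at most as fast as its arguments. -/
def Lip (K : ℝ≥0 → ℝ≥0 → ℝ≥0) : Prop := ∀ a b u, K (a + u) b ≤ K a b + u

/-- **Midpoint quasi-convexity.** -/
lemma Base.midpoint_le (hK : Base K) (hL : Lip K) (a δ b ε : ℝ≥0) :
    K (a + δ) (b + ε) ≤ max (K a (b + 2 * ε)) (K (a + 2 * δ) b) := by
  by_contra hcon
  rw [not_le, max_lt_iff] at hcon
  obtain ⟨h1, h2⟩ := hcon
  have e1 : a ≤ a + δ := le_self_add
  have e2 : a + δ ≤ a + 2 * δ := by gcongr; exact le_mul_of_one_le_left zero_le one_le_two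
  have e3 : b ≤ b + ε := le_self_add
  have e4 : b + ε ≤ b + 2 * ε := by gcongr; exact le_mul_of_one_le_left zero_le one_le_two
  set s := res K (a + δ) a with hs
  set s' := res K (a + 2 * δ) (a + δ) with hs'
  set t := res K (b + 2 * ε) (b + ε) with ht
  set t' := res K (b + ε) b with ht'
  have ks : K a s = a + δ := hK.K_res e1
  have ks' : K (a + δ) s' = a + 2 * δ := hK.K_res e2
  have kt : K (b + ε) t = b + 2 * ε := hK.K_res e4
  have kt' : K b t' = b + ε := hK.K_res e3
  -- s > t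
  have i1 : t < s := by
    by_contra hle
    rw [not_lt] at hle
    apply absurd h1
    rw [not_lt]
    calc K (a + δ) (b + ε) = K (K a s) (b + ε) := by rw [ks]
      _ = K a (K s (b + ε)) := hK.assoc _ _ _
      _ ≤ K a (K t (b + ε)) := hK.mono₂ le_rfl (hK.mono₂ hle le_rfl)
      _ = K a (b + 2 * ε) := by rw [hK.symm t, kt]
  have i2 : s' < t' := by
    by_contra hle
    rw [not_lt] at hle
    apply absurd h2
    rw [not_lt]
    calc K (a + δ) (b + ε) = K (a + δ) (K t' b) := by rw [hK.symm t', kt']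
      _ ≤ K (a + δ) (K s' b) := hK.mono₂ le_rfl (hK.mono₂ hle le_rfl)
      _ = K (K (a + δ) s') b := (hK.assoc _ _ _).symm
      _ = K (a + 2 * δ) b := by rw [ks']
  have i3 : s ≤ s' := by
    rw [hs, hK.res_le_iff]
    have h := hL a s' δ
    rw [ks'] at h
    have : (a + δ) + δ ≤ K a s' + δ := by
      calc (a + δ) + δ = a + 2 * δ := by ring
        _ ≤ _ := h
    exact le_of_add_le_add_right this
  have i4 : t' ≤ t := by
    rw [ht', hK.res_le_iff]
    have h := hL b t ε
    rw [kt] at h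
    have : (b + ε) + ε ≤ K b t + ε := by
      calc (b + ε) + ε = b + 2 * ε := by ring
        _ ≤ _ := h
    exact le_of_add_le_add_right this
  exact absurd (i3.trans_lt (i2.trans_le (i4.trans i1.le))) (lt_irrefl _)

/-- the function on the plane -/
noncomputable def pl (K : ℝ≥0 → ℝ≥0 → ℝ≥0) (p : ℝ × ℝ) : ℝ := (K p.1.toNNReal p.2.toNNReal : ℝ)

lemma Base.pl_cont (hK : Base K) : Continuous (pl K) := by
  have h : Continuous (fun p : ℝ × ℝ => (p.1.toNNReal, p.2.toNNReal)) := by fun_prop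
  exact NNReal.continuous_coe.comp (hK.cont.comp h)

/-- quasi-convexity at the midpoint, in the plane -/
lemma Base.pl_midpoint (hK : Base K) (hL : Lip K) (p q : ℝ × ℝ) :
    pl K ((1 / 2 : ℝ) • (p + q)) ≤ max (pl K p) (pl K q) := by
  obtain ⟨p1, p2⟩ := p
  obtain ⟨q1, q2⟩ := q
  -- positive parts
  have key : ∀ x y z w : ℝ≥0, K ((x + z) / 2) ((y + w) / 2) ≤ max (K x y) (K z w) := by
    have aux : ∀ x y z w : ℝ≥0, x ≤ z → K ((x + z) / 2) ((y + w) / 2) ≤ max (K x y) (K z w) := by
      intro x y z w hxz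
      rcases le_total y w with hyw | hyw
      · refine le_max_of_le_right ?_
        apply hK.mono₂
        · rw [div_le_iff₀ two_pos]; rw [mul_two]; gcongr
        · rw [div_le_iff₀ two_pos]; rw [mul_two]; gcongr
      · obtain ⟨d, rfl⟩ := exists_add_of_le hxz
        obtain ⟨e, rfl⟩ := exists_add_of_le hyw
        have h := hK.midpoint_le hL x (d / 2) w (e / 2)
        have e1 : (x + (x + d)) / 2 = x + d / 2 := by
          rw [← add_assoc, ← two_mul, add_div, mul_div_cancel_left₀ _ (two_ne_zero)]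
        have e2 : (w + e + w) / 2 = w + e / 2 := by
          rw [add_comm (w + e) w, ← add_assoc, ← two_mul, add_div, mul_div_cancel_left₀ _ (two_ne_zero)]
        have e3 : 2 * (d / 2) = d := mul_div_cancel₀ d two_ne_zero
        have e4 : 2 * (e / 2) = e := mul_div_cancel₀ e two_ne_zero
        rw [e3, e4] at h
        rw [e1, e2]
        exact h
    intro x y z w
    rcases le_total x z with h | h
    · exact aux x y z w h
    · have := aux z w x y h
      rwa [add_comm z x, add_comm w y, max_comm] at this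
  have h := key p1.toNNReal p2.toNNReal q1.toNNReal q2.toNNReal
  have mono : K ((1 / 2 : ℝ) * (p1 + q1)).toNNReal ((1 / 2 : ℝ) * (p2 + q2)).toNNReal ≤
      K ((p1.toNNReal + q1.toNNReal) / 2) ((p2.toNNReal + q2.toNNReal) / 2) := by
    have aux : ∀ u v : ℝ, ((1 / 2 : ℝ) * (u + v)).toNNReal ≤ (u.toNNReal + v.toNNReal) / 2 := by
      intro u v
      rw [Real.toNNReal_le_iff_le_coe]
      push_cast
      have h1 := Real.le_coe_toNNReal u
      have h2 := Real.le_coe_toNNReal v
      linarith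
    exact hK.mono₂ (aux _ _) (aux _ _)
  have h3 := mono.trans h
  have : pl K ((1 / 2 : ℝ) • ((p1, p2) + (q1, q2))) =
      (K ((1 / 2 : ℝ) * (p1 + q1)).toNNReal ((1 / 2 : ℝ) * (p2 + q2)).toNNReal : ℝ) := rfl
  rw [this]
  have h4 : ((K ((1 / 2 : ℝ) * (p1 + q1)).toNNReal ((1 / 2 : ℝ) * (p2 + q2)).toNNReal : ℝ≥0) : ℝ) ≤
      ((max (K p1.toNNReal p2.toNNReal) (K q1.toNNReal q2.toNNReal) : ℝ≥0) : ℝ) := by
    exact_mod_cast h3
  rw [NNReal.coe_max] at h4
  exact h4

/-- a closed set that is closed under midpoints is convex -/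
lemma convex_of_midpoint {C : Set (ℝ × ℝ)} (hC : IsClosed C)
    (hm : ∀ p ∈ C, ∀ q ∈ C, (1 / 2 : ℝ) • (p + q) ∈ C) : Convex ℝ C := by
  rw [convex_iff_forall_pos]
  intro p hp q hq a b ha hb hab
  by_contra hcon
  let γ : ℝ → ℝ × ℝ := fun t => (1 - t) • p + t • q
  have hγ : Continuous γ := by fun_prop
  have hb1 : b < 1 := by linarith
  have hbC : γ b ∉ C := by
    have : γ b = a • p + b • q := by
      show (1 - b) • p + b • q = _
      rw [show 1 - b = a by linarith]
    rw [this]; exact hcon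
  set A := γ ⁻¹' C ∩ Icc 0 b with hA
  set B := γ ⁻¹' C ∩ Icc b 1 with hB
  have hAc : IsCompact A := isCompact_Icc.inter_left (hC.preimage hγ)
  have hBc : IsCompact B := isCompact_Icc.inter_left (hC.preimage hγ)
  have hAn : A.Nonempty := ⟨0, by show γ 0 ∈ C; simpa [γ] using hp, by constructor <;> linarith⟩
  have hBn : B.Nonempty := ⟨1, by show γ 1 ∈ C; simpa [γ] using hq, by constructor <;> linarith⟩
  obtain ⟨hu1, hu2⟩ := hAc.sSup_mem hAn
  obtain ⟨hv1, hv2⟩ := hBc.sInf_mem hBn
  set u := sSup A with hu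
  set v := sInf B with hv
  have hub : u < b := by
    rcases eq_or_lt_of_le hu2.2 with h | h
    · exact absurd (h ▸ hu1) hbC
    · exact h
  have hbv : b < v := by
    rcases eq_or_lt_of_le hv2.1 with h | h
    · exact absurd (h ▸ hv1) hbC
    · exact h
  have hmid : γ ((u + v) / 2) ∈ C := by
    have := hm _ hu1 _ hv1
    have e : γ ((u + v) / 2) = (1 / 2 : ℝ) • (γ u + γ v) := by
      show (1 - (u + v) / 2) • p + ((u + v) / 2) • q =
        (1 / 2 : ℝ) • (((1 - u) • p + u • q) + ((1 - v) • p + v • q))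
      module
    rw [e]; exact this
  rcases le_total ((u + v) / 2) b with h | h
  · have : (u + v) / 2 ∈ A := ⟨hmid, by have := hu2.1; linarith, h⟩
    have := le_csSup hAc.bddAbove this
    linarith
  · have : (u + v) / 2 ∈ B := ⟨hmid, h, by have := hv2.2; linarith⟩
    have := csInf_le hBc.bddBelow this
    linarith

lemma Base.sublevel_convex (hK : Base K) (hL : Lip K) (r : ℝ) : Convex ℝ {p : ℝ × ℝ | pl K p ≤ r} := by
  apply convex_of_midpoint
  · exact isClosed_le hK.pl_cont continuous_const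
  · intro p hp q hq
    exact (hK.pl_midpoint hL p q).trans (max_le hp hq)

lemma supp_bdd (hK : Base K) (θ r : ℝ≥0) : BddAbove {t | ∃ a b : ℝ≥0, K a b ≤ r ∧ t = a + θ * b} := by
  refine ⟨r + θ * r, ?_⟩
  rintro _ ⟨a, b, h, rfl⟩
  gcongr
  · exact (hK.le_left a b).trans h
  · exact (hK.le_right a b).trans h

lemma le_supp (hK : Base K) {θ r a b : ℝ≥0} (h : K a b ≤ r) : a + θ * b ≤ supp K θ r :=
  le_csSup (supp_bdd hK θ r) ⟨a, b, h, rfl⟩

lemma supp_le (hK : Base K) {θ r c : ℝ≥0} (h : ∀ a b, K a b ≤ r → a + θ * b ≤ c) : supp K θ r ≤ c := by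
  refine csSup_le ⟨_, 0, 0, by rw [hK.zero_right]; exact zero_le, rfl⟩ ?_
  rintro _ ⟨a, b, hab, rfl⟩
  exact h a b hab

/-- condition 4 -/
def Sub (K : ℝ≥0 → ℝ≥0 → ℝ≥0) : Prop := ∀ a b c d, K (a + c) (b + d) ≤ K a b + K c d

lemma Base.lip_of_sub (hK : Base K) (h : Sub K) : Lip K := by
  intro a b u
  have := h a b u 0
  rwa [add_zero, hK.zero_right] at this

lemma Base.supp_superadd (hK : Base K) (h : Sub K) (θ r s : ℝ≥0) :
    supp K θ r + supp K θ s ≤ supp K θ (r + s) := by
  have h1 : ∀ a b, K a b ≤ r → a + θ * b ≤ supp K θ (r + s) - supp K θ s := by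
    intro a b hab
    have h2 : supp K θ s ≤ supp K θ (r + s) - (a + θ * b) := by
      apply supp_le hK
      intro c d hcd
      have h3 : (a + c) + θ * (b + d) ≤ supp K θ (r + s) :=
        le_supp hK ((h a b c d).trans (add_le_add hab hcd))
      apply le_tsub_of_add_le_left
      calc a + θ * b + (c + θ * d) = (a + c) + θ * (b + d) := by ring
        _ ≤ _ := h3
    have h4 : a + θ * b ≤ supp K θ (r + s) := by
      apply le_supp hK (hab.trans le_self_add)
    apply le_tsub_of_add_le_left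
    calc supp K θ s + (a + θ * b) ≤ (supp K θ (r + s) - (a + θ * b)) + (a + θ * b) := by gcongr
      _ = supp K θ (r + s) := tsub_add_cancel_of_le h4
  have h5 : supp K θ r ≤ supp K θ (r + s) - supp K θ s := supp_le hK h1
  have h6 : supp K θ s ≤ supp K θ (r + s) := by
    apply supp_le hK
    intro c d hcd
    exact le_supp hK (hcd.trans le_add_self)
  calc supp K θ r + supp K θ s ≤ (supp K θ (r + s) - supp K θ s) + supp K θ s := by gcongr
    _ = _ := tsub_add_cancel_of_le h6

end Pool.Agent.H3.Adm
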