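import Pool.Agent.H3.Adm.Basic

/-!
# Continuous associative subadditive functions as suprema of subadditive functions of linear forms
-/

open scoped NNReal
open Set

namespace Pool.Agent.H3.Adm

variable {K : ℝ≥0 → ℝ≥0 → ℝ≥0}

/-- Separation: a point outside a sublevel set is separated from it by a linear form `a + θ b` or
`θ a + b` with `θ ≤ 1`. -/
lemma Base.separate (hK : Base K) (hL : Lip K) {a b r : ℝ≥0} (h : r < K a b) :
    ∃ θ : ℝ≥0, θ ≤ 1 ∧ ((∀ x y, K x y ≤ r → x + θ * y < a + θ * b) ∨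
      (∀ x y, K x y ≤ r → θ * x + y < θ * a + b)) := by
  have hcl : IsClosed {p : ℝ × ℝ | pl K p ≤ (r : ℝ)} := isClosed_le hK.pl_cont continuous_const
  have hnot : ((a : ℝ), (b : ℝ)) ∉ {p : ℝ × ℝ | pl K p ≤ (r : ℝ)} := by
    show ¬ ((K (a : ℝ).toNNReal (b : ℝ).toNNReal : ℝ≥0) : ℝ) ≤ r
    rw [Real.toNNReal_coe, Real.toNNReal_coe, NNReal.coe_le_coe, not_le]
    exact h
  obtain ⟨f, u, h1, h2⟩ := geometric_hahn_banach_closed_point (hK.sublevel_convex hL r) hcl hnot
  set α : ℝ := f (1, 0) with hα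
  set β : ℝ := f (0, 1) with hβ
  have hf : ∀ x y : ℝ, f (x, y) = α * x + β * y := by
    intro x y
    have : ((x, y) : ℝ × ℝ) = x • ((1, 0) : ℝ × ℝ) + y • ((0, 1) : ℝ × ℝ) := by
      ext <;> simp
    rw [this, map_add, map_smul, map_smul, smul_eq_mul, smul_eq_mul]
    ring
  have hu0 : 0 < u := by
    have := h1 (0, 0) (by
      show ((K (0 : ℝ).toNNReal (0 : ℝ).toNNReal : ℝ≥0) : ℝ) ≤ r
      rw [Real.toNNReal_zero, hK.zero_right]
      exact r.2)
    rw [hf] at this
    simpa using this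
  have hneg : ∀ M : ℝ, 0 ≤ M → α * (-M) < u ∧ β * (-M) < u := by
    intro M hM
    constructor
    · have := h1 (-M, 0) (by
        show ((K (-M).toNNReal (0 : ℝ).toNNReal : ℝ≥0) : ℝ) ≤ r
        rw [Real.toNNReal_zero, Real.toNNReal_of_nonpos (by linarith), hK.zero_right]
        exact r.2)
      rw [hf] at this
      linarith
    · have := h1 (0, -M) (by
        show ((K (0 : ℝ).toNNReal (-M).toNNReal : ℝ≥0) : ℝ) ≤ r
        rw [Real.toNNReal_zero, Real.toNNReal_of_nonpos (by linarith), hK.zero_right]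
        exact r.2)
      rw [hf] at this
      linarith
  have hα0 : 0 ≤ α := by
    by_contra hc
    rw [not_le] at hc
    have h3 := (hneg (u / (-α)) (by apply div_nonneg hu0.le; linarith)).1
    have h4 : α * (-(u / (-α))) = u := by
      have : α ≠ 0 := hc.ne
      field_simp
    linarith
  have hβ0 : 0 ≤ β := by
    by_contra hc
    rw [not_le] at hc
    have h3 := (hneg (u / (-β)) (by apply div_nonneg hu0.le; linarith)).2
    have h4 : β * (-(u / (-β))) = u := by
      have : β ≠ 0 := hc.ne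
      field_simp
    linarith
  have hsep : ∀ x y : ℝ≥0, K x y ≤ r → α * x + β * y < α * a + β * b := by
    intro x y hxy
    have h3 := h1 ((x : ℝ), (y : ℝ)) (by
      show ((K (x : ℝ).toNNReal (y : ℝ).toNNReal : ℝ≥0) : ℝ) ≤ r
      rw [Real.toNNReal_coe, Real.toNNReal_coe]
      exact_mod_cast hxy)
    rw [hf] at h3
    rw [hf] at h2
    linarith
  have h00 : 0 < α * a + β * b := by
    rw [hf] at h2; linarith
  rcases le_total β α with hle | hle
  · have hαp : 0 < α := by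
      rcases hα0.lt_or_eq with h | h
      · exact h
      · exfalso
        have hb : β = 0 := le_antisymm (h ▸ hle) hβ0
        rw [← h, hb] at h00
        simp at h00
    obtain ⟨θ, hθ⟩ : ∃ θ : ℝ≥0, (θ : ℝ) = β / α :=
      ⟨(β / α).toNNReal, Real.coe_toNNReal _ (div_nonneg hβ0 hα0)⟩
    refine ⟨θ, ?_, Or.inl ?_⟩
    · rw [← NNReal.coe_le_coe, hθ, NNReal.coe_one, div_le_one hαp]; exact hle
    · intro x y hxy
      rw [← NNReal.coe_lt_coe]
      push_cast
      rw [hθ]
      have h3 := hsep x y hxy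
      have h4 : α * ((x : ℝ) + β / α * y) = α * x + β * y := by field_simp
      have h5 : α * ((a : ℝ) + β / α * b) = α * a + β * b := by field_simp
      have h6 : α * ((x : ℝ) + β / α * y) < α * ((a : ℝ) + β / α * b) := by rw [h4, h5]; exact h3
      exact lt_of_mul_lt_mul_left h6 hα0
  · have hβp : 0 < β := by
      rcases hβ0.lt_or_eq with h | h
      · exact h
      · exfalso
        have hb : α = 0 := le_antisymm (h ▸ hle) hα0
        rw [← h, hb] at h00
        simp at h00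
    obtain ⟨θ, hθ⟩ : ∃ θ : ℝ≥0, (θ : ℝ) = α / β :=
      ⟨(α / β).toNNReal, Real.coe_toNNReal _ (div_nonneg hα0 hβ0)⟩
    refine ⟨θ, ?_, Or.inr ?_⟩
    · rw [← NNReal.coe_le_coe, hθ, NNReal.coe_one, div_le_one hβp]; exact hle
    · intro x y hxy
      rw [← NNReal.coe_lt_coe]
      push_cast
      rw [hθ]
      have h3 := hsep x y hxy
      have h4 : β * (α / β * (x : ℝ) + y) = α * x + β * y := by field_simp
      have h5 : β * (α / β * (a : ℝ) + b) = α * a + β * b := by field_simp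
      have h6 : β * (α / β * (x : ℝ) + y) < β * (α / β * (a : ℝ) + b) := by rw [h4, h5]; exact h3
      exact lt_of_mul_lt_mul_left h6 hβ0

/-- the supremum in the definition of the support function is attained, so the strict separation passes to
the support function -/
lemma Base.supp_attained (hK : Base K) (θ r : ℝ≥0) : ∃ a b, K a b ≤ r ∧ supp K θ r = a + θ * b := by
  have hcomp : IsCompact {p : ℝ≥0 × ℝ≥0 | K p.1 p.2 ≤ r} := by
    have hsub : {p : ℝ≥0 × ℝ≥0 | K p.1 p.2 ≤ r} ⊆ Icc 0 r ×ˢ Icc 0 r := by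
      rintro ⟨x, y⟩ hxy
      exact ⟨⟨zero_le, (hK.le_left x y).trans hxy⟩, ⟨zero_le, (hK.le_right x y).trans hxy⟩⟩
    exact (isCompact_Icc.prod isCompact_Icc).of_isClosed_subset (isClosed_le hK.cont continuous_const) hsub
  have hne : ({p : ℝ≥0 × ℝ≥0 | K p.1 p.2 ≤ r}).Nonempty :=
    ⟨(0, 0), by show K 0 0 ≤ r; rw [hK.zero_right]; exact zero_le⟩
  have hcont : Continuous (fun p : ℝ≥0 × ℝ≥0 => p.1 + θ * p.2) := by fun_prop
  obtain ⟨⟨a, b⟩, hab, hmax⟩ := hcomp.exists_isMaxOn hne hcont.continuousOn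
  refine ⟨a, b, hab, le_antisymm ?_ (le_supp hK hab)⟩
  apply supp_le hK
  intro x y hxy
  exact hmax (a := (x, y)) hxy

/-- the generalised inverse of the support function -/
noncomputable def sg (K : ℝ≥0 → ℝ≥0 → ℝ≥0) (θ x : ℝ≥0) : ℝ≥0 := sInf {r | x ≤ supp K θ r}

lemma supp_mono (hK : Base K) (θ : ℝ≥0) {r s : ℝ≥0} (h : r ≤ s) : supp K θ r ≤ supp K θ s := by
  apply supp_le hK
  intro a b hab
  exact le_supp hK (hab.trans h)

lemma sg_set_nonempty (hK : Base K) (θ x : ℝ≥0) : ({r | x ≤ supp K θ r}).Nonempty := by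
  refine ⟨x, ?_⟩
  have : x + θ * 0 ≤ supp K θ x := le_supp hK (by rw [hK.zero_right])
  simpa using this

lemma sg_le {θ x r : ℝ≥0} (h : x ≤ supp K θ r) : sg K θ x ≤ r := csInf_le (OrderBot.bddBelow _) h

lemma sg_mono (hK : Base K) (θ : ℝ≥0) : Monotone (sg K θ) := by
  intro x y hxy
  apply le_csInf (sg_set_nonempty hK θ y)
  intro r hr
  exact sg_le (hxy.trans hr)

lemma sg_subadd (hK : Base K) {θ : ℝ≥0} (h : ∀ r s, supp K θ r + supp K θ s ≤ supp K θ (r + s))
    (x y : ℝ≥0) : sg K θ (x + y) ≤ sg K θ x + sg K θ y := by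
  have h1 : ∀ r, x ≤ supp K θ r → sg K θ (x + y) - r ≤ sg K θ y := by
    intro r hr
    apply le_csInf (sg_set_nonempty hK θ y)
    intro s hs
    rw [tsub_le_iff_left]
    exact sg_le ((add_le_add hr hs).trans (h r s))
  have h2 : sg K θ (x + y) - sg K θ y ≤ sg K θ x := by
    apply le_csInf (sg_set_nonempty hK θ x)
    intro r hr
    rw [tsub_le_iff_left, ← tsub_le_iff_right]
    exact h1 r hr
  rwa [tsub_le_iff_right] at h2

lemma sg_le_K (_hK : Base K) (hK : Base K) (θ a b : ℝ≥0) : sg K θ (a + θ * b) ≤ K a b :=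
  sg_le (le_supp hK le_rfl)

lemma le_sg (hK : Base K) {θ x r : ℝ≥0} (h : supp K θ r < x) : r ≤ sg K θ x := by
  apply le_csInf (sg_set_nonempty hK θ x)
  intro s hs
  by_contra hc
  rw [not_le] at hc
  exact absurd ((hs.trans (supp_mono hK θ hc.le)).trans_lt h) (lt_irrefl _)

/-- `K` is a supremum of nondecreasing subadditive functions of linear forms. -/
def IsSup (K : ℝ≥0 → ℝ≥0 → ℝ≥0) : Prop :=
  ∃ (ι : Type) (α β : ι → ℝ≥0) (σ : ι → ℝ≥0 → ℝ≥0), (∀ i, Monotone (σ i)) ∧
    (∀ i x y, σ i (x + y) ≤ σ i x + σ i y) ∧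
    ∀ a b, IsLUB (Set.range fun i => σ i (α i * a + β i * b)) (K a b)

lemma sub_of_isSup (h : IsSup K) : Sub K := by
  obtain ⟨ι, α, β, σ, _, h2, h3⟩ := h
  intro a b c d
  apply (h3 (a + c) (b + d)).2
  rintro _ ⟨i, rfl⟩
  have e : α i * (a + c) + β i * (b + d) = (α i * a + β i * b) + (α i * c + β i * d) := by ring
  show σ i (α i * (a + c) + β i * (b + d)) ≤ _
  rw [e]
  refine (h2 i _ _).trans (add_le_add ?_ ?_)
  · exact (h3 a b).1 ⟨i, rfl⟩
  · exact (h3 c d).1 ⟨i, rfl⟩

lemma isSup_of (hK : Base K) (hL : Lip K)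
    (hS : ∀ θ : ℝ≥0, θ ≤ 1 → ∀ r s, supp K θ r + supp K θ s ≤ supp K θ (r + s)) : IsSup K := by
  refine ⟨Bool × {θ : ℝ≥0 // θ ≤ 1}, fun i => if i.1 then 1 else i.2.1, fun i => if i.1 then i.2.1 else 1,
    fun i => sg K i.2.1, fun i => sg_mono hK _, fun i => sg_subadd hK (hS _ i.2.2), ?_⟩
  intro a b
  constructor
  · rintro _ ⟨⟨i, θ, hθ⟩, rfl⟩
    cases i
    · show sg K θ (θ * a + 1 * b) ≤ K a b
      rw [one_mul, add_comm, hK.symm]
      exact sg_le_K hK hK θ b a
    · show sg K θ (1 * a + θ * b) ≤ K a b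
      rw [one_mul]
      exact sg_le_K hK hK θ a b
  · intro c hc
    by_contra hcon
    rw [not_le] at hcon
    -- take r with c < r < K a b
    obtain ⟨r, hr1, hr2⟩ := exists_between hcon
    obtain ⟨θ, hθ, h | h⟩ := hK.separate hL hr2
    · obtain ⟨x, y, hxy, he⟩ := hK.supp_attained θ r
      have h1 : supp K θ r < a + θ * b := by rw [he]; exact h x y hxy
      have h2 := le_sg hK h1
      have h3 : sg K θ (1 * a + θ * b) ≤ c := hc ⟨(true, ⟨θ, hθ⟩), rfl⟩
      rw [one_mul] at h3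
      exact absurd (h2.trans h3) (not_le.2 hr1)
    · obtain ⟨x, y, hxy, he⟩ := hK.supp_attained θ r
      have h1 : supp K θ r < b + θ * a := by
        rw [he]
        have := h y x (by rw [hK.symm]; exact hxy)
        rw [add_comm x, add_comm b]
        exact this
      have h2 := le_sg hK h1
      have h3 : sg K θ (θ * a + 1 * b) ≤ c := hc ⟨(false, ⟨θ, hθ⟩), rfl⟩
      rw [one_mul, add_comm] at h3
      exact absurd (h2.trans h3) (not_le.2 hr1)

end Pool.Agent.H3.Adm
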